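import Pool.Agent.TH510.Sefe.Draw
import Pool.Agent.TH510.Sefe.Tree

/-!
# The Hanani-Tutte criterion for simultaneous embedding with fixed edges is false

The definitions (`IsArc`, `IsProperCrossing`, `Drawing`, `Drawing.crossings`, `Indep`,
`Drawing.iocr`, `Drawing.restrict`, `siocr`, `Drawing.Planar`, `AdmitsSEFE`) are in
`Pool.Agent.TH510.Sefe.Defs`.

The two graphs have ten vertices `c, d, a 0, ..., a 3, b 0, ..., b 3`. The first one consists of the
four paths `c, a i, b i, d` and the second one of the four paths `c, a i, b (σ i), d`, where `σ` is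
the 3-cycle `(0 1 2)`. In a simultaneous embedding the cyclic order of the four edges at `c` would
be invariant under `σ`, and no cyclic order of four elements is. The drawing is polygonal, with
integer coordinates between 0 and 10.
-/

set_option autoImplicit false

namespace Pool.Agent.Results.MP_3c943f_co.SefeCounterexample

open Pool.Agent.TH510.Sefe

/-- There are two graphs `G₁`, `G₂` on the same ten vertices, whose shared graph is a tree of
maximum degree at most four, such that `siocr(G₁, G₂)`, the minimum of `siocr(D)` over all drawings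
`D` of `G₁ ∪ G₂`, is zero, but the pair `(G₁, G₂)` admits no simultaneous embedding with fixed
edges. -/
theorem result : ∃ G₁ G₂ : SimpleGraph (Fin 10),
    (G₁ ⊓ G₂).IsTree ∧ (∀ v, ((G₁ ⊓ G₂).neighborSet v).ncard ≤ 4) ∧
    IsLeast {n : ℕ | ∃ D : Drawing (G₁ ⊔ G₂), siocr D = n} 0 ∧ ¬ AdmitsSEFE G₁ G₂ :=
  ⟨Pool.Agent.TH510.Sefe.G₁, Pool.Agent.TH510.Sefe.G₂, shared_tree, shared_degree,
    ⟨⟨draw, siocr_draw⟩, fun _ _ => Nat.zero_le _⟩, no_sefe⟩

end Pool.Agent.Results.MP_3c943f_co.SefeCounterexample
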